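import Pool.Agent.H15.SC.Rrun
import Pool.Agent.H15.SC.Tail
import Pool.Agent.H15.SC.Vol

/-! # [H99 UP ALLC] all plane curves of degree `≤ n` (helper15's SharpCount with points `Fin 2 → ℤ` and the constant `kaps n`) -/

namespace Pool.Agent.H99.UP

open Pool.Agent.H8.NoPt Pool.Agent.H15.SC MvPolynomial

private theorem ex_conv (F : MvPolynomial (Fin 2) ℤ) :
    (∃ P : Fin 2 → ℤ, eval P F = 0) ↔ ∃ P : ℤ × ℤ, eval ![P.1, P.2] F = 0 := by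
  constructor
  · rintro ⟨P, h⟩
    refine ⟨(P 0, P 1), ?_⟩
    have h2 : ![P 0, P 1] = P := by
      funext i
      fin_cases i <;> rfl
    simp only [h2]
    exact h
  · rintro ⟨P, h⟩
    exact ⟨_, h⟩

private theorem ex_conv2 (F : MvPolynomial (Fin 2) ℤ) :
    (∃ P Q : Fin 2 → ℤ, P ≠ Q ∧ eval P F = 0 ∧ eval Q F = 0) ↔
      ∃ P Q : ℤ × ℤ, P ≠ Q ∧ eval ![P.1, P.2] F = 0 ∧ eval ![Q.1, Q.2] F = 0 := by
  have h2 : ∀ P : Fin 2 → ℤ, ![P 0, P 1] = P := by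
    intro P
    funext i
    fin_cases i <;> rfl
  constructor
  · rintro ⟨P, Q, hne, hP, hQ⟩
    refine ⟨(P 0, P 1), (Q 0, Q 1), ?_, ?_, ?_⟩
    · intro h
      apply hne
      simp only [Prod.mk.injEq] at h
      funext i
      fin_cases i
      · exact h.1
      · exact h.2
    · simp only [h2]
      exact hP
    · simp only [h2]
      exact hQ
  · rintro ⟨P, Q, hne, hP, hQ⟩
    refine ⟨_, _, ?_, hP, hQ⟩
    intro h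
    apply hne
    have e0 := congrFun h 0
    have e1 := congrFun h 1
    simp only [Matrix.cons_val_zero, Matrix.cons_val_one] at e0 e1
    exact Prod.ext e0 e1

private theorem ex_conv3 (F : MvPolynomial (Fin 2) ℤ) (T : ℕ) :
    (∃ P : Fin 2 → ℤ, (T : ℤ) < max |P 0| |P 1| ∧ eval P F = 0) ↔
      ∃ P : ℤ × ℤ, (T : ℤ) < max |P.1| |P.2| ∧ eval ![P.1, P.2] F = 0 := by
  constructor
  · rintro ⟨P, hT, h⟩
    refine ⟨(P 0, P 1), hT, ?_⟩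
    have h2 : ![P 0, P 1] = P := by
      funext i
      fin_cases i <;> rfl
    simp only [h2]
    exact h
  · rintro ⟨P, hT, h⟩
    exact ⟨![P.1, P.2], by simpa using hT, h⟩

theorem allc (n : ℕ) (hn : 5 ≤ n) : ∃ W : ℝ, ∀ H : ℕ, 1 ≤ H →
    |((Set.ncard {L : MvPolynomial (Fin 2) ℤ | L.totalDegree ≤ n ∧ (∀ m, |L.coeff m| ≤ (H : ℤ)) ∧
        ∃ P : Fin 2 → ℤ, eval P L = 0} : ℕ) : ℝ) - kaps n * (2 * (H : ℝ) + 1) ^ ((n + 1) * (n + 2) / 2 - 1)| ≤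
      W * (H : ℝ) ^ (-(1 / 100 : ℝ)) * (2 * (H : ℝ) + 1) ^ ((n + 1) * (n + 2) / 2 - 1) ∧
    ((Set.ncard {L : MvPolynomial (Fin 2) ℤ | L.totalDegree ≤ n ∧ (∀ m, |L.coeff m| ≤ (H : ℤ)) ∧
        ∃ P Q : Fin 2 → ℤ, P ≠ Q ∧ eval P L = 0 ∧ eval Q L = 0} : ℕ) : ℝ) ≤
      W * (H : ℝ) ^ (-(1 / 100 : ℝ)) * (2 * (H : ℝ) + 1) ^ ((n + 1) * (n + 2) / 2 - 1) ∧
    ∀ T : ℕ, 1 ≤ T →
      ((Set.ncard {L : MvPolynomial (Fin 2) ℤ | L.totalDegree ≤ n ∧ (∀ m, |L.coeff m| ≤ (H : ℤ)) ∧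
        ∃ P : Fin 2 → ℤ, (T : ℤ) < max |P 0| |P 1| ∧ eval P L = 0} : ℕ) : ℝ) ≤
      W * (1 / (T : ℝ) ^ (n - 2) + (H : ℝ) ^ (-(1 / 100 : ℝ))) * (2 * (H : ℝ) + 1) ^ ((n + 1) * (n + 2) / 2 - 1) := by
  classical
  obtain ⟨C1, hC1⟩ := vec_all n hn (runge_of n hn)
  obtain ⟨C2, hC2, hC3⟩ := vec_tail n hn (runge_of n hn)
  obtain ⟨C, hCa, hCb⟩ : ∃ C : ℝ, C1 ≤ C ∧ C2 ≤ C := ⟨max C1 C2, le_max_left _ _, le_max_right _ _⟩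
  have hC : ∀ H : ℕ, 1 ≤ H →
      |(((Box n H).filter fun a => ∃ P : ℤ × ℤ,
          Pool.Agent.H72.ES.ev n (arr a) P.1 P.2 = 0).card : ℝ) -
        kaps n * (2 * H + 1 : ℝ) ^ (Fintype.card (Ix n) - 1)| ≤
        C * (H : ℝ) ^ (-(1 / 100 : ℝ)) * (2 * H + 1 : ℝ) ^ (Fintype.card (Ix n) - 1) ∧
      (((Box n H).filter fun a => ∃ P Q : ℤ × ℤ, P ≠ Q ∧
        Pool.Agent.H72.ES.ev n (arr a) P.1 P.2 = 0 ∧
        Pool.Agent.H72.ES.ev n (arr a) Q.1 Q.2 = 0).card : ℝ) ≤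
        C * (H : ℝ) ^ (-(1 / 100 : ℝ)) * (2 * H + 1 : ℝ) ^ (Fintype.card (Ix n) - 1) := by
    intro H hH
    have hle : C1 * (H : ℝ) ^ (-(1 / 100 : ℝ)) * (2 * H + 1 : ℝ) ^ (Fintype.card (Ix n) - 1) ≤
        C * (H : ℝ) ^ (-(1 / 100 : ℝ)) * (2 * H + 1 : ℝ) ^ (Fintype.card (Ix n) - 1) :=
      mul_le_mul_of_nonneg_right (mul_le_mul_of_nonneg_right hCa (by positivity)) (by positivity)
    exact ⟨(hC1 H hH).1.trans hle, (hC1 H hH).2.trans hle⟩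
  refine ⟨C, fun H hH => ?_⟩
  have h := hC H hH
  rw [card_ix] at h
  simp only [ex_conv, ex_conv2, ex_conv3]
  have e1 : {F : MvPolynomial (Fin 2) ℤ | F.totalDegree ≤ n ∧
      (∀ m, |F.coeff m| ≤ (H : ℤ)) ∧
      ∃ P : ℤ × ℤ, MvPolynomial.eval ![P.1, P.2] F = 0} =
      {F : MvPolynomial (Fin 2) ℤ | (F.totalDegree ≤ n ∧ ∀ m, |F.coeff m| ≤ (H : ℤ)) ∧
        (fun a : Ix n → ℤ => ∃ P : ℤ × ℤ, Pool.Agent.H72.ES.ev n (arr a) P.1 P.2 = 0)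
          (toVec n F)} := by
    ext F
    constructor
    · rintro ⟨h1, h2, P, h3⟩
      exact ⟨⟨h1, h2⟩, P, by rw [← eval_toVec n h1]; exact h3⟩
    · rintro ⟨⟨h1, h2⟩, P, h3⟩
      exact ⟨h1, h2, P, by rw [eval_toVec n h1]; exact h3⟩
  have e2 : {F : MvPolynomial (Fin 2) ℤ | F.totalDegree ≤ n ∧
      (∀ m, |F.coeff m| ≤ (H : ℤ)) ∧
        ∃ P Q : ℤ × ℤ, P ≠ Q ∧ MvPolynomial.eval ![P.1, P.2] F = 0 ∧
          MvPolynomial.eval ![Q.1, Q.2] F = 0} =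
      {F : MvPolynomial (Fin 2) ℤ | (F.totalDegree ≤ n ∧ ∀ m, |F.coeff m| ≤ (H : ℤ)) ∧
        (fun a : Ix n → ℤ => ∃ P Q : ℤ × ℤ, P ≠ Q ∧
          Pool.Agent.H72.ES.ev n (arr a) P.1 P.2 = 0 ∧
          Pool.Agent.H72.ES.ev n (arr a) Q.1 Q.2 = 0) (toVec n F)} := by
    ext F
    constructor
    · rintro ⟨h1, h2, P, Q, h3, h4, h5⟩
      exact ⟨⟨h1, h2⟩, P, Q, h3, by rw [← eval_toVec n h1]; exact h4,
        by rw [← eval_toVec n h1]; exact h5⟩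
    · rintro ⟨⟨h1, h2⟩, P, Q, h3, h4, h5⟩
      exact ⟨h1, h2, P, Q, h3, by rw [eval_toVec n h1]; exact h4,
        by rw [eval_toVec n h1]; exact h5⟩
  have b1 := box_ncard n H (fun a : Ix n → ℤ => ∃ P : ℤ × ℤ,
    Pool.Agent.H72.ES.ev n (arr a) P.1 P.2 = 0)
  have b2 := box_ncard n H (fun a : Ix n → ℤ => ∃ P Q : ℤ × ℤ, P ≠ Q ∧
    Pool.Agent.H72.ES.ev n (arr a) P.1 P.2 = 0 ∧ Pool.Agent.H72.ES.ev n (arr a) Q.1 Q.2 = 0)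
  rw [← b1, ← b2] at h
  rw [e1, e2]
  refine ⟨h.1, h.2, fun T hT => ?_⟩
  have h3 := hC3 H T hH hT
  rw [card_ix] at h3
  have e3 : {F : MvPolynomial (Fin 2) ℤ | F.totalDegree ≤ n ∧
      (∀ m, |F.coeff m| ≤ (H : ℤ)) ∧
      ∃ P : ℤ × ℤ, (T : ℤ) < max |P.1| |P.2| ∧ MvPolynomial.eval ![P.1, P.2] F = 0} =
      {F : MvPolynomial (Fin 2) ℤ | (F.totalDegree ≤ n ∧ ∀ m, |F.coeff m| ≤ (H : ℤ)) ∧
        (fun a : Ix n → ℤ => ∃ P : ℤ × ℤ, (T : ℤ) < msz P ∧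
          Pool.Agent.H72.ES.ev n (arr a) P.1 P.2 = 0) (toVec n F)} := by
    ext F
    constructor
    · rintro ⟨h1, h2, P, h3, h4⟩
      exact ⟨⟨h1, h2⟩, P, h3, by rw [← eval_toVec n h1]; exact h4⟩
    · rintro ⟨⟨h1, h2⟩, P, h3, h4⟩
      exact ⟨h1, h2, P, h3, by rw [eval_toVec n h1]; exact h4⟩
  have b3 := box_ncard n H (fun a : Ix n → ℤ => ∃ P : ℤ × ℤ, (T : ℤ) < msz P ∧
    Pool.Agent.H72.ES.ev n (arr a) P.1 P.2 = 0)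
  rw [e3, b3]
  exact h3.trans (mul_le_mul_of_nonneg_right (mul_le_mul_of_nonneg_right hCb (by positivity))
    (by positivity))

end Pool.Agent.H99.UP
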